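import Pool.Agent.Helper7.DS.Fac
import Pool.Agent.Helper7.DS.Lin
import Pool.Agent.Helper7.DS.Lib
import Pool.Agent.Helper9.DS.COMPL
import Pool.Agent.Helper9.DS.CNT

/-!
# MP_99eff6_co, Q1: the diamond-saturated families of size `n + 1`

Every diamond-saturated `F ⊆ P([n])` with `n + 1` members is a maximal chain, or
`{∅} ∪ {{i}}`, or `{[n]} ∪ {[n] \ {i}}`.  The new part is that a diamond-saturated family which
contains neither `∅` nor `[n]` has at least `n + 2` members.
-/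

namespace Pool.Agent.Results.MP_99eff6_co.MinimumFamilies

open Pool.Agent.Helper7.DS

variable {n : ℕ}

/-- `F` contains an induced copy of the diamond `Q₂`, the lattice of subsets of a two-element
set: there is an order embedding (`p ≤ q` iff `f p ⊆ f q`) of `Q₂` into `P([n])` with all values
in `F`. -/
def HasDiamond (F : Finset (Finset (Fin n))) : Prop :=
  ∃ f : Finset (Fin 2) ↪o Finset (Fin n), ∀ p, f p ∈ F

/-- `F` is diamond-saturated: it has no induced diamond, and adding any missing set creates one. -/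
def DiamondSaturated (F : Finset (Finset (Fin n))) : Prop :=
  ¬ HasDiamond F ∧ ∀ S : Finset (Fin n), S ∉ F → HasDiamond (insert S F)

theorem hasDiamond_iff (F : Finset (Finset (Fin n))) :
    HasDiamond F ↔ ∃ A ∈ F, ∃ X ∈ F, ∃ Y ∈ F, ∃ B ∈ F,
      A ⊂ X ∧ A ⊂ Y ∧ X ⊂ B ∧ Y ⊂ B ∧ ¬ X ⊆ Y ∧ ¬ Y ⊆ X :=
  Lib.hasDiamond_iff F

/-- A diamond-saturated family without `∅` and `[n]` satisfies the working hypotheses `Sat`. -/
theorem sat_of {F : Finset (Finset (Fin n))} (hF : DiamondSaturated F) (h0 : ∅ ∉ F)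
    (h1 : Finset.univ ∉ F) : Sat F := by
  refine ⟨?_, ?_, h0, h1⟩
  · intro Z hZ X hX Y hY W hW hZX hZY hXW hYW
    by_contra hcon
    push Not at hcon
    refine hF.1 ((hasDiamond_iff F).2 ⟨Z, hZ, X, hX, Y, hY, W, hW, ?_, ?_, ?_, ?_, hcon.1, hcon.2⟩)
    · exact ⟨hZX, fun h => hcon.1 (h.trans hZY)⟩
    · exact ⟨hZY, fun h => hcon.2 (h.trans hZX)⟩
    · exact ⟨hXW, fun h => hcon.2 (hYW.trans h)⟩
    · exact ⟨hYW, fun h => hcon.1 (hXW.trans h)⟩
  · intro S hS
    obtain ⟨A, hA, X, hX, Y, hY, B, hB, hAX, hAY, hXB, hYB, hXY, hYX⟩ :=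
      (hasDiamond_iff _).1 (hF.2 S hS)
    rw [Finset.mem_insert] at hA hX hY hB
    have nAX : A ≠ X := fun h => hAX.2 (h ▸ Finset.Subset.rfl)
    have nAY : A ≠ Y := fun h => hAY.2 (h ▸ Finset.Subset.rfl)
    have nXB : X ≠ B := fun h => hXB.2 (h ▸ Finset.Subset.rfl)
    have nYB : Y ≠ B := fun h => hYB.2 (h ▸ Finset.Subset.rfl)
    have nXY : X ≠ Y := fun h => hXY (h ▸ Finset.Subset.rfl)
    have nAB : A ≠ B := fun h => hAX.2 (h ▸ hXB.1)
    by_cases eA : A = S
    · subst eA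
      have hX' := hX.resolve_left nAX.symm
      have hY' := hY.resolve_left nAY.symm
      have hB' := hB.resolve_left nAB.symm
      exact Or.inl ⟨X, hX', Y, hY', B, hB', hAX.1, hAY.1, hXB.1, hYB.1, hXY, hYX⟩
    have hA' := hA.resolve_left eA
    by_cases eX : X = S
    · subst eX
      have hY' := hY.resolve_left nXY.symm
      have hB' := hB.resolve_left nXB.symm
      exact Or.inr (Or.inl ⟨A, hA', Y, hY', B, hB', hAX.1, hAY.1, hXB.1, hYB.1, hYX, hXY⟩)
    have hX' := hX.resolve_left eX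
    by_cases eY : Y = S
    · subst eY
      have hB' := hB.resolve_left nYB.symm
      exact Or.inr (Or.inl ⟨A, hA', X, hX', B, hB', hAY.1, hAX.1, hYB.1, hXB.1, hXY, hYX⟩)
    have hY' := hY.resolve_left eY
    by_cases eB : B = S
    · subst eB
      exact Or.inr (Or.inr ⟨A, hA', X, hX', Y, hY', hAX.1, hAY.1, hXB.1, hYB.1, hXY, hYX⟩)
    have hB' := hB.resolve_left eB
    exact (hF.1 ((hasDiamond_iff F).2
      ⟨A, hA', X, hX', Y, hY', B, hB', hAX, hAY, hXB, hYB, hXY, hYX⟩)).elim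

/-- A diamond-saturated family that contains neither `∅` nor `[n]` has at least `n + 2` members. -/
theorem card_of_sat {F : Finset (Finset (Fin n))} (hS : Sat F) : n + 2 ≤ F.card := by
  obtain ⟨Z, hZ, -⟩ := bot_of_noMember hS (S := ∅) (fun C hC hsub => by
    rw [Finset.subset_empty] at hsub
    exact hS.empty (hsub ▸ hC))
  obtain ⟨hle, hsurj⟩ := LIN_thm n F ⟨Z, hZ⟩ (SPAN_thm Pool.Agent.Helper9.DS.COMPL_thm n F hS)
  by_contra hcon
  have hcard : F.card = n + 1 := by omega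
  obtain ⟨S, u, hfac, hu, hmem, hmin⟩ := FAC_thm n F hS (hsurj hcard)
  have := Pool.Agent.Helper9.DS.CNT_thm n F hS S u hfac hu hmem hmin
  omega

/-- **Main theorem (Q1).** Every diamond-saturated `F ⊆ P([n])` with `|F| = n + 1` is a maximal
chain, or `F = {∅} ∪ {{i} : i ∈ [n]}`, or `F = {[n]} ∪ {[n] \ {i} : i ∈ [n]}`. -/
theorem result (n : ℕ) (F : Finset (Finset (Fin n))) (hF : DiamondSaturated F)
    (hcard : F.card = n + 1) :
    IsMaxChain (· ⊆ ·) (F : Set (Finset (Fin n))) ∨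
      F = insert ∅ (Finset.univ.image (fun i : Fin n => ({i} : Finset (Fin n)))) ∨
      F = insert Finset.univ (Finset.univ.image (fun i : Fin n => ({i}ᶜ : Finset (Fin n)))) := by
  by_cases hmem : ∅ ∈ F ∨ Finset.univ ∈ F
  · exact Lib.empty_or_full n F hF hcard hmem
  · rw [not_or] at hmem
    have := card_of_sat (sat_of hF hmem.1 hmem.2)
    omega

end Pool.Agent.Results.MP_99eff6_co.MinimumFamilies
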